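import Pool.Agent.H14.AVR.Stmts

/-!
# AVR, module GRP: lower bounds for the groups
-/

set_option autoImplicit false

namespace Pool.AVR

open Polynomial Matrix

namespace GRP

variable {F : Type} [Field F]

/-- the elements of the Borel subgroup -/
noncomputable def bor (l : F) (s : F[X]) : Matrix (Fin 3) (Fin 3) F[X] :=
  !![C l, C l * s, -(C (l / 2) * s ^ 2);
     0, 1, -s;
     0, 0, C l⁻¹]

/-- the elements of the big cell, as constant matrices -/
def cel (l s r : F) : Matrix (Fin 3) (Fin 3) F :=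
  !![-(l * s ^ 2 / 2), -(l * s ^ 2 * r / 2 + l * s), l * s ^ 2 * r ^ 2 / 4 + l * s * r + l;
     -s, -(s * r + 1), s * r ^ 2 / 2 + r;
     l⁻¹, r * l⁻¹, -(r ^ 2 * l⁻¹ / 2)]

/-- the elements of the big cell -/
noncomputable def cell (l s r : F) : Matrix (Fin 3) (Fin 3) F[X] :=
  (cel l s r).map (C : F →+* F[X])

theorem Clmul {l : F} (h : l ≠ 0) : (C l : F[X]) * C l⁻¹ = 1 := by
  rw [← C_mul, mul_inv_cancel₀ h, C_1]

theorem bor_iso (h2 : (2 : F) ≠ 0) {l : F} (h : l ≠ 0) (s : F[X]) :
    (bor l s)ᵀ * AA F[X] * bor l s = AA F[X] := by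
  have hl := Clmul h
  have e2 : (C (l / 2) : F[X]) * C l⁻¹ * 2 = 1 := by
    have : (2 : F[X]) = C (2 : F) := by
      rw [map_ofNat]
    rw [this, ← C_mul, ← C_mul]
    have h3 : l / 2 * l⁻¹ * 2 = 1 := by
      field_simp
    rw [h3, C_1]
  ext i j : 1
  fin_cases i <;> fin_cases j <;>
    simp [bor, AA, Matrix.mul_apply, Fin.sum_univ_three]
  all_goals first
    | exact mul_inv_cancel₀ h
    | linear_combination hl
    | linear_combination s * hl
    | linear_combination (-s ^ 2) * e2

theorem bor_det {l : F} (h : l ≠ 0) (s : F[X]) : (bor l s).det = 1 := by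
  have hl := Clmul h
  rw [Matrix.det_fin_three]
  simp [bor]
  linear_combination hl

theorem cel_iso (h2 : (2 : F) ≠ 0) {l : F} (h : l ≠ 0) (s r : F) :
    (cel l s r)ᵀ * AA F * cel l s r = AA F := by
  have h4 : (4 : F) ≠ 0 := by
    have : (4 : F) = 2 * 2 := by norm_num
    rw [this]
    exact mul_ne_zero h2 h2
  ext i j : 1
  fin_cases i <;> fin_cases j <;>
    simp [cel, AA, Matrix.mul_apply, Fin.sum_univ_three]
  all_goals (field_simp; ring)

theorem cel_det (h2 : (2 : F) ≠ 0) {l : F} (h : l ≠ 0) (s r : F) : (cel l s r).det = 1 := by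
  have h4 : (4 : F) ≠ 0 := by
    have : (4 : F) = 2 * 2 := by norm_num
    rw [this]
    exact mul_ne_zero h2 h2
  rw [Matrix.det_fin_three]
  simp [cel]
  field_simp
  ring

theorem AA_map : AA F[X] = (AA F).map (C : F →+* F[X]) := by
  ext i j : 1
  fin_cases i <;> fin_cases j <;> simp [AA]

theorem cell_iso (h2 : (2 : F) ≠ 0) {l : F} (h : l ≠ 0) (s r : F) :
    (cell l s r)ᵀ * AA F[X] * cell l s r = AA F[X] := by
  unfold cell
  rw [AA_map, ← Matrix.transpose_map, ← Matrix.map_mul, ← Matrix.map_mul, cel_iso h2 h]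

theorem cell_det (h2 : (2 : F) ≠ 0) {l : F} (h : l ≠ 0) (s r : F) : (cell l s r).det = 1 := by
  unfold cell
  have := (C : F →+* F[X]).map_det (cel l s r)
  rw [cel_det h2 h, map_one] at this
  rw [this]
  rfl

theorem nd_C_mul (l : F) (s : F[X]) (m : ℕ) (hs : s.natDegree ≤ m) :
    (C l * s).natDegree ≤ m := (natDegree_C_mul_le l s).trans hs

theorem bor_mem (h2 : (2 : F) ≠ 0) {l : F} (h : l ≠ 0) (s : F[X]) (m : ℕ)
    (hs : s.natDegree ≤ m) : bor l s ∈ GG F m := by
  refine ⟨bor_iso h2 h s, bor_det h s, ?_⟩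
  have h1 := nd_C_mul l s m hs
  have h3 : (C (l / 2) * s ^ 2).natDegree ≤ 2 * m := by
    refine (natDegree_C_mul_le _ _).trans (natDegree_pow_le.trans ?_)
    omega
  intro i j
  fin_cases i <;> fin_cases j <;> simp [bor, dd] <;> intros <;> omega

theorem cell_mem (h2 : (2 : F) ≠ 0) {l : F} (h : l ≠ 0) (s r : F) : cell l s r ∈ GG F 0 := by
  refine ⟨cell_iso h2 h s r, cell_det h2 h s r, ?_⟩
  intro i j _
  have : ((cell l s r) i j).natDegree = 0 := by
    unfold cell
    rw [Matrix.map_apply]
    exact natDegree_C _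
  rw [this]
  fin_cases i <;> fin_cases j <;> simp [dd]

theorem deg_fin [Finite F] (n : ℕ) : ((degreeLT F n : Submodule F F[X]) : Set F[X]).Finite := by
  have : Finite (degreeLT F n) := Finite.of_equiv _ (degreeLTEquiv F n).symm.toEquiv
  exact Set.toFinite _

theorem card_deg [Finite F] (n : ℕ) : Nat.card (degreeLT F n) = Nat.card F ^ n := by
  rw [Nat.card_congr (degreeLTEquiv F n).toEquiv, Nat.card_fun, Nat.card_fin]

theorem gg_fin [Finite F] (m : ℕ) : (GG F m).Finite := by
  have h1 : {g : Matrix (Fin 3) (Fin 3) F[X] | ∀ i j, g i j ∈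
      ((degreeLT F (2 * m + 1) : Submodule F F[X]) : Set F[X])}.Finite :=
    Set.Finite.pi' fun i => Set.Finite.pi' fun j => deg_fin (2 * m + 1)
  refine h1.subset ?_
  rintro g ⟨_, _, hg⟩ i j
  by_cases h0 : g i j = 0
  · rw [h0]
    exact (degreeLT F (2 * m + 1)).zero_mem
  · have h3 := hg i j h0
    have h4 : dd m j - dd m i ≤ 2 * m := by
      fin_cases i <;> fin_cases j <;> simp [dd] <;> omega
    have h5 : (g i j).natDegree < 2 * m + 1 := by
      have : ((g i j).natDegree : ℤ) ≤ 2 * m := h3.trans h4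
      omega
    change g i j ∈ degreeLT F (2 * m + 1)
    rw [mem_degreeLT, degree_eq_natDegree h0]
    exact_mod_cast h5

end GRP

open GRP in
theorem grp_thm : GRPStmt := by
  intro F _ _ h2
  have hu : Nat.card Fˣ = Nat.card F - 1 := Nat.card_units F
  refine ⟨gg_fin, ?_, ?_⟩
  · -- m = 0
    have hfin := gg_fin (F := F) 0
    have : Finite (GG F 0) := hfin
    let Φ : (Fˣ × F) ⊕ (Fˣ × F × F) → GG F 0 := fun z => match z with
      | Sum.inl (l, s) => ⟨bor (l : F) (C s), bor_mem h2 l.ne_zero (C s) 0 (by simp)⟩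
      | Sum.inr (l, s, r) => ⟨cell (l : F) s r, cell_mem h2 l.ne_zero s r⟩
    have hinj : Function.Injective Φ := by
      rintro (⟨l, s⟩ | ⟨l, s, r⟩) (⟨l', s'⟩ | ⟨l', s', r'⟩) he
      · have he' : bor (l : F) (C s) = bor (l' : F) (C s') := congrArg Subtype.val he
        have e1 := congrFun (congrFun he' 0) 0
        have e2 := congrFun (congrFun he' 1) 2
        simp [bor] at e1 e2
        rw [Units.ext e1, e2]
      · have he' : bor (l : F) (C s) = cell (l' : F) s' r' := congrArg Subtype.val he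
        have e1 := congrFun (congrFun he' 2) 0
        simp only [bor, cell, cel, Matrix.map_apply] at e1
        have e3 : (0 : F[X]) = C ((l' : F)⁻¹) := e1
        exact absurd (C_eq_zero.mp e3.symm) (inv_ne_zero l'.ne_zero)
      · have he' : cell (l : F) s r = bor (l' : F) (C s') := congrArg Subtype.val he
        have e1 := congrFun (congrFun he' 2) 0
        simp only [bor, cell, cel, Matrix.map_apply] at e1
        have e3 : C ((l : F)⁻¹) = (0 : F[X]) := e1
        exact absurd (C_eq_zero.mp e3) (inv_ne_zero l.ne_zero)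
      · have he' : cell (l : F) s r = cell (l' : F) s' r' := congrArg Subtype.val he
        have e1 := congrFun (congrFun he' 2) 0
        have e2 := congrFun (congrFun he' 1) 0
        have e3 := congrFun (congrFun he' 2) 1
        simp [cell, cel] at e1 e2 e3
        have hl : l = l' := Units.ext e1
        subst hl
        simp at e3
        rw [e2, e3]
    have hc := Nat.card_le_card_of_injective Φ hinj
    rw [Nat.card_coe_set_eq, Nat.card_sum, Nat.card_prod, Nat.card_prod, Nat.card_prod, hu] at hc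
    refine le_trans ?_ hc
    have hq : 1 ≤ Nat.card F := Nat.card_pos
    obtain ⟨q, hq'⟩ := Nat.exists_eq_add_of_le hq
    rw [hq']
    have : (1 + q) ^ 3 - (1 + q) ≤ (1 + q - 1) * (1 + q) + (1 + q - 1) * ((1 + q) * (1 + q)) := by
      rw [Nat.add_sub_cancel_left, Nat.sub_le_iff_le_add]
      apply le_of_eq
      ring
    exact this
  · intro m hm
    have hfin := gg_fin (F := F) m
    have : Finite (GG F m) := hfin
    let Φ : Fˣ × degreeLT F (m + 1) → GG F m := fun z =>
      ⟨bor (z.1 : F) z.2.1, bor_mem h2 z.1.ne_zero z.2.1 m (by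
        have h3 := mem_degreeLT.mp z.2.2
        by_cases h0 : z.2.1 = 0
        · rw [h0]; simp
        · rw [degree_eq_natDegree h0] at h3
          have : z.2.1.natDegree < m + 1 := by exact_mod_cast h3
          omega)⟩
    have hinj : Function.Injective Φ := by
      rintro ⟨l, s⟩ ⟨l', s'⟩ he
      have he' : bor (l : F) s.1 = bor (l' : F) s'.1 := congrArg Subtype.val he
      have e1 := congrFun (congrFun he' 0) 0
      have e2 := congrFun (congrFun he' 1) 2
      simp [bor] at e1 e2
      rw [Units.ext e1, e2]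
    have hc := Nat.card_le_card_of_injective Φ hinj
    rw [Nat.card_coe_set_eq, Nat.card_prod, hu, card_deg] at hc
    exact hc

end Pool.AVR
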